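import Pool.Agent.H82.AS.Targets

set_option autoImplicit false

open Pool.Agent.H38.RB Pool.Agent.H38.PS Pool.Agent.H82.AS

namespace Pool.Agent.H48.AS

/-- the factorization which belongs to a distribution of the primes -/
def psi (D : ℕ) (φ : {x // x ∈ D.primeFactors} → Fin 3) (i : Fin 3) : ℕ :=
  ∏ p : {x // x ∈ D.primeFactors}, if φ p = i then p.1 ^ D.factorization p.1 else 1

theorem psi_prod {D : ℕ} (hD : 1 ≤ D) (φ : {x // x ∈ D.primeFactors} → Fin 3) :
    psi D φ 0 * psi D φ 1 * psi D φ 2 = D := by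
  have h1 : psi D φ 0 * psi D φ 1 * psi D φ 2 = ∏ i : Fin 3, psi D φ i := by
    rw [Fin.prod_univ_three]
  rw [h1]
  unfold psi
  rw [Finset.prod_comm]
  have h2 : ∀ p : {x // x ∈ D.primeFactors},
      (∏ i : Fin 3, if φ p = i then p.1 ^ D.factorization p.1 else 1) =
        p.1 ^ D.factorization p.1 := by
    intro p
    rw [Finset.prod_ite_eq, if_pos (Finset.mem_univ _)]
  rw [Finset.prod_congr rfl fun p _ => h2 p]
  have h3 := Nat.prod_factorization_pow_eq_self (n := D) (by omega)
  conv_rhs => rw [← h3]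
  rw [Finsupp.prod, Nat.support_factorization]
  exact Finset.prod_coe_sort D.primeFactors (fun p => p ^ D.factorization p)

theorem psi_coprime {D : ℕ} (φ : {x // x ∈ D.primeFactors} → Fin 3) {i j : Fin 3} (hij : i ≠ j) :
    (psi D φ i).Coprime (psi D φ j) := by
  unfold psi
  refine Nat.Coprime.prod_left fun p _ => Nat.Coprime.prod_right fun q _ => ?_
  split_ifs with h1 h2
  · have hne : p.1 ≠ q.1 := by
      intro h
      have h3 : p = q := Subtype.ext h
      rw [h3, h2] at h1
      exact hij h1.symm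
    exact Nat.Coprime.pow _ _ ((Nat.coprime_primes (Nat.prime_of_mem_primeFactors p.2)
      (Nat.prime_of_mem_primeFactors q.2)).2 hne)
  · exact Nat.coprime_one_right _
  · exact Nat.coprime_one_left _
  · exact Nat.coprime_one_right _

theorem dvd_psi {D : ℕ} (φ : {x // x ∈ D.primeFactors} → Fin 3)
    (p : {x // x ∈ D.primeFactors}) : p.1 ∣ psi D φ (φ p) := by
  have h1 : p.1 ^ D.factorization p.1 ∣ psi D φ (φ p) := by
    have h2 := Finset.dvd_prod_of_mem
      (fun q : {x // x ∈ D.primeFactors} => if φ q = φ p then q.1 ^ D.factorization q.1 else 1)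
      (Finset.mem_univ p)
    rw [if_pos rfl] at h2
    exact h2
  refine (dvd_pow_self _ ?_).trans h1
  have h3 : ∀ q ∈ D.primeFactors, D.factorization q ≠ 0 := by
    intro q hq
    rw [← Nat.support_factorization, Finsupp.mem_support_iff] at hq
    exact hq
  exact h3 p.1 p.2

theorem psi_inj (D : ℕ) : Function.Injective (psi D) := by
  intro φ φ' h
  funext p
  by_contra hne
  have h1 := dvd_psi φ p
  rw [h] at h1
  have h2 := dvd_psi φ' p
  have h3 := psi_coprime φ' hne
  have h4 := Nat.dvd_gcd h1 h2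
  rw [h3] at h4
  exact (Nat.prime_of_mem_primeFactors p.2).one_lt.ne' (Nat.dvd_one.1 h4)

theorem eq_of_le_of_mul {a b c a' b' c' : ℕ} (ha : a ≤ a') (hb : b ≤ b') (hc : c ≤ c')
    (h0 : 0 < a' * b' * c') (h : a * b * c = a' * b' * c') : a = a' ∧ b = b' ∧ c = c' := by
  have hpos : 0 < a * b * c := by rw [h]; exact h0
  have ha0 : 0 < a := Nat.pos_of_ne_zero (by rintro rfl; simp at hpos)
  have hb0 : 0 < b := Nat.pos_of_ne_zero (by rintro rfl; simp at hpos)
  have hc0 : 0 < c := Nat.pos_of_ne_zero (by rintro rfl; simp at hpos)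
  refine ⟨?_, ?_, ?_⟩
  · rcases ha.lt_or_eq with h1 | h1
    · exfalso
      have h2 : a * b * c < a' * b * c := by
        apply Nat.mul_lt_mul_of_pos_right _ hc0
        exact Nat.mul_lt_mul_of_pos_right h1 hb0
      have h3 : a' * b * c ≤ a' * b' * c' := Nat.mul_le_mul (Nat.mul_le_mul le_rfl hb) hc
      omega
    · exact h1
  · rcases hb.lt_or_eq with h1 | h1
    · exfalso
      have h2 : a * b * c < a * b' * c := by
        apply Nat.mul_lt_mul_of_pos_right _ hc0
        exact Nat.mul_lt_mul_of_pos_left h1 ha0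
      have h3 : a * b' * c ≤ a' * b' * c' := Nat.mul_le_mul (Nat.mul_le_mul ha le_rfl) hc
      omega
    · exact h1
  · rcases hc.lt_or_eq with h1 | h1
    · exfalso
      have h2 : a * b * c < a * b * c' := Nat.mul_lt_mul_of_pos_left h1 (Nat.mul_pos ha0 hb0)
      have h3 : a * b * c' ≤ a' * b' * c' := Nat.mul_le_mul (Nat.mul_le_mul ha hb) le_rfl
      omega
    · exact h1

theorem psi_surj {D : ℕ} (hD : 1 ≤ D) (d : Fin 3 → ℕ) (hd : d 0 * d 1 * d 2 = D)
    (hc : ∀ i j, i ≠ j → (d i).Coprime (d j)) : ∃ φ, psi D φ = d := by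
  have hne : ∀ i, d i ≠ 0 := by
    intro i h
    have h1 : d 0 * d 1 * d 2 = ∏ i : Fin 3, d i := by rw [Fin.prod_univ_three]
    rw [h1, Finset.prod_eq_zero (Finset.mem_univ i) h] at hd
    omega
  have hex : ∀ p : {x // x ∈ D.primeFactors}, ∃ i, p.1 ∣ d i := by
    intro p
    have hp := Nat.prime_of_mem_primeFactors p.2
    have h1 : p.1 ∣ d 0 * d 1 * d 2 := (Nat.dvd_of_mem_primeFactors p.2).trans (dvd_of_eq hd.symm)
    rcases (Nat.Prime.dvd_mul hp).1 h1 with h | h
    · rcases (Nat.Prime.dvd_mul hp).1 h with h | h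
      · exact ⟨0, h⟩
      · exact ⟨1, h⟩
    · exact ⟨2, h⟩
  choose φ hφ using hex
  refine ⟨φ, ?_⟩
  have hval : ∀ p : {x // x ∈ D.primeFactors},
      p.1 ^ D.factorization p.1 ∣ d (φ p) := by
    intro p
    have hp := Nat.prime_of_mem_primeFactors p.2
    have hz : ∀ j, j ≠ φ p → (d j).factorization p.1 = 0 := by
      intro j hj
      apply Nat.factorization_eq_zero_of_not_dvd
      intro h
      have h4 := Nat.dvd_gcd h (hφ p)
      rw [hc j (φ p) hj] at h4
      exact hp.one_lt.ne' (Nat.dvd_one.1 h4)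
    have h1 : D.factorization p.1 = (d (φ p)).factorization p.1 := by
      have h2 : D = ∏ i : Fin 3, d i := by rw [Fin.prod_univ_three, hd]
      have h3 : D.factorization p.1 = (∏ i : Fin 3, d i).factorization p.1 :=
        congrArg (fun n => n.factorization p.1) h2
      rw [h3, Nat.factorization_prod (fun i _ => hne i), Finsupp.finsetSum_apply]
      exact Finset.sum_eq_single (φ p) (fun j _ hj => hz j hj)
        (fun h => absurd (Finset.mem_univ _) h)
    rw [h1]
    exact Nat.ordProj_dvd _ _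
  have hdvd : ∀ i, psi D φ i ∣ d i := by
    intro i
    unfold psi
    refine Finset.prod_dvd_of_isRelPrime ?_ ?_
    · intro p _ q _ hpq
      rw [Function.onFun]
      rw [← Nat.coprime_iff_isRelPrime]
      split_ifs
      · have hne : p.1 ≠ q.1 := fun h => hpq (Subtype.ext h)
        exact Nat.Coprime.pow _ _ ((Nat.coprime_primes (Nat.prime_of_mem_primeFactors p.2)
          (Nat.prime_of_mem_primeFactors q.2)).2 hne)
      · exact Nat.coprime_one_right _
      · exact Nat.coprime_one_left _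
      · exact Nat.coprime_one_right _
    · intro p _
      split_ifs with h
      · rw [← h]
        exact hval p
      · exact one_dvd _
  have hle : ∀ i, psi D φ i ≤ d i := fun i => Nat.le_of_dvd (Nat.pos_of_ne_zero (hne i)) (hdvd i)
  have h5 := eq_of_le_of_mul (hle 0) (hle 1) (hle 2) (by rw [hd]; omega)
    (by rw [psi_prod hD, hd])
  funext i
  fin_cases i
  · exact h5.1
  · exact h5.2.1
  · exact h5.2.2

theorem pf_FAC : T_FAC := by
  intro D hD
  have hset : {d : Fin 3 → ℕ | d 0 * d 1 * d 2 = D ∧ ∀ i j, i ≠ j → (d i).Coprime (d j)} =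
      Set.range (psi D) := by
    ext d
    constructor
    · rintro ⟨h1, h2⟩
      exact psi_surj hD d h1 h2
    · rintro ⟨φ, rfl⟩
      exact ⟨psi_prod hD φ, fun i j hij => psi_coprime φ hij⟩
  rw [hset]
  refine ⟨Set.finite_range _, ?_⟩
  rw [← Set.image_univ, Set.ncard_image_of_injective _ (psi_inj D), Set.ncard_univ,
    Nat.card_eq_fintype_card, Fintype.card_fun, Fintype.card_fin, Fintype.card_coe]
  unfold w3
  push_cast
  rfl

end Pool.Agent.H48.AS
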