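import Pool.Agent.H82.AS.Targets

set_option autoImplicit false

open Pool.Agent.H38.RB Pool.Agent.H38.PS Pool.Agent.H82.AS

namespace Pool.Agent.H48.AS

theorem ex_zero : ex 0 = 0 := by
  unfold ex
  simp

theorem ex_one : ex 1 = 1 := by
  unfold ex pd
  simp

theorem ex_mul {m n : ℕ} (hm : m ≠ 0) (hn : n ≠ 0) (h : m.Coprime n) : ex (m * n) = ex m * ex n := by
  unfold ex pd
  rw [Nat.primeFactors_mul hm hn, Finset.prod_union h.disjoint_primeFactors]
  push_cast
  rw [mul_div_mul_comm]

theorem ex_nonneg (n : ℕ) : 0 ≤ ex n := by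
  unfold ex
  positivity

theorem ex_pow {p : ℕ} (hp : p.Prime) (b : ℕ) : ex (p ^ (b + 1)) = (p : ℝ) ^ b := by
  unfold ex pd
  rw [Nat.primeFactors_prime_pow (Nat.succ_ne_zero b) hp, Finset.prod_singleton]
  have h0 : (p : ℝ) ≠ 0 := Nat.cast_ne_zero.2 hp.ne_zero
  push_cast
  rw [pow_succ, mul_div_assoc, div_self h0, mul_one]

/-- the function `ex ^ (2 / 3)` -/
noncomputable def exF : ArithmeticFunction ℝ :=
  ⟨fun n => ex n ^ (2 / 3 : ℝ), by rw [ex_zero, Real.zero_rpow (by norm_num)]⟩

theorem exF_apply (n : ℕ) : exF n = ex n ^ (2 / 3 : ℝ) := rfl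

theorem exF_mult : exF.IsMultiplicative := by
  rw [ArithmeticFunction.IsMultiplicative.iff_ne_zero]
  refine ⟨by rw [exF_apply, ex_one, Real.one_rpow], ?_⟩
  intro m n hm hn h
  rw [exF_apply, exF_apply, exF_apply, ex_mul hm hn h,
    Real.mul_rpow (ex_nonneg m) (ex_nonneg n)]

theorem Gx_eq (D : ℕ) :
    Gx D = (((ArithmeticFunction.moebius : ArithmeticFunction ℤ) : ArithmeticFunction ℝ) * exF) D := by
  rw [ArithmeticFunction.mul_apply, Nat.sum_divisorsAntidiagonal'
    (f := fun a b => ((ArithmeticFunction.moebius : ArithmeticFunction ℤ) :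
      ArithmeticFunction ℝ) a * exF b)]
  unfold Gx
  refine Finset.sum_congr rfl fun E _ => ?_
  rw [ArithmeticFunction.intCoe_apply, exF_apply]

theorem pf_GXE : T_GXE := by
  have hmult : (((ArithmeticFunction.moebius : ArithmeticFunction ℤ) : ArithmeticFunction ℝ) *
      exF).IsMultiplicative :=
    ArithmeticFunction.isMultiplicative_moebius.intCast.mul exF_mult
  refine ⟨?_, ?_, ?_⟩
  · rw [Gx_eq]
    exact hmult.map_one
  · intro m n h
    rw [Gx_eq, Gx_eq, Gx_eq]
    exact hmult.map_mul_of_coprime h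
  · intro p hp
    have h0 : (p : ℝ) ≠ 0 := Nat.cast_ne_zero.2 hp.ne_zero
    have hsum : ∀ k : ℕ, Gx (p ^ k) = ∑ b ∈ Finset.range (k + 1),
        (ArithmeticFunction.moebius (p ^ (k - b)) : ℝ) * ex (p ^ b) ^ (2 / 3 : ℝ) := by
      intro k
      unfold Gx
      rw [Nat.sum_divisors_prime_pow hp]
      refine Finset.sum_congr rfl fun b hb => ?_
      rw [Nat.pow_div (Nat.lt_succ_iff.1 (Finset.mem_range.1 hb)) hp.pos]
    refine ⟨?_, ?_⟩
    · have h1 := hsum 1
      rw [pow_one] at h1
      rw [h1, Finset.sum_range_succ, Finset.sum_range_one, Nat.sub_zero, Nat.sub_self, pow_one,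
        pow_zero, ex_one, ArithmeticFunction.moebius_apply_one,
        ArithmeticFunction.moebius_apply_prime hp]
      have h2 := ex_pow hp 0
      rw [zero_add, pow_one, pow_zero] at h2
      rw [h2, Real.one_rpow]
      push_cast
      ring
    · intro a
      rw [hsum, Finset.sum_range_succ, Finset.sum_range_succ, Finset.sum_eq_zero]
      · rw [Nat.sub_self, pow_zero, ArithmeticFunction.moebius_apply_one,
          show a + 2 - (a + 1) = 1 from by omega, pow_one,
          ArithmeticFunction.moebius_apply_prime hp, ex_pow hp a, ex_pow hp (a + 1)]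
        have hp0 : (0 : ℝ) ≤ p := Nat.cast_nonneg p
        rw [← Real.rpow_natCast, ← Real.rpow_natCast, ← Real.rpow_mul hp0, ← Real.rpow_mul hp0]
        push_cast
        rw [show ((a : ℝ) * (2 / 3)) = 2 * (a : ℝ) / 3 from by ring,
          show (((a : ℝ) + 1) * (2 / 3)) = 2 * ((a : ℝ) + 1) / 3 from by ring]
        ring
      · intro b hb
        have hb' := Finset.mem_range.1 hb
        rw [ArithmeticFunction.moebius_apply_prime_pow hp (by omega), if_neg (by omega)]
        push_cast
        ring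

end Pool.Agent.H48.AS
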